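import Pool.Agent.Q291.Cops.Girth

/-!
# The cop number is not bounded by any function of the optimal pebbling number

The incidence graphs of the points `(x, y)` and the lines `y = m x + b` of the affine plane over a
field with `p` elements are connected, every vertex is within distance four of `(0, 0)`, they have
no cycles of length less than six and all degrees are `p`.
-/

set_option autoImplicit false

open N6ef48c04

namespace Pool.Agent.Results.MP_64c30f_co.UnboundedGap

open Pool.Agent.Q291.Cops

/-- A pebbling move: two pebbles are removed from `v` and one is placed on a neighbour `w`. -/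
def Move {V : Type} (G : SimpleGraph V) (D D' : V → ℕ) : Prop :=
  ∃ v w, G.Adj v w ∧ D v = D' v + 2 ∧ D' w = D w + 1 ∧ ∀ u, u ≠ v → u ≠ w → D' u = D u

/-- A sequence of pebbling moves leads from `D` to a distribution with a pebble on `r`. -/
def Reaches {V : Type} (G : SimpleGraph V) (D : V → ℕ) (r : V) : Prop :=
  ∃ D', Relation.ReflTransGen (Move G) D D' ∧ 1 ≤ D' r

/-- The optimal pebbling number: the least size of a distribution from which every vertex is
reachable. -/
noncomputable def optimalPebbling {V : Type} [Fintype V] (G : SimpleGraph V) : ℕ :=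
  sInf {n : ℕ | ∃ D : V → ℕ, ∑ v, D v = n ∧ ∀ r, Reaches G D r}

/-- Pebbles travel along a path. -/
lemma travel {V : Type} (G : SimpleGraph V) (n : ℕ) : ∀ (a b : V) (D : V → ℕ), G.Reachable a b →
    G.dist a b ≤ n → 2 ^ n ≤ D a → Reaches G D b := by
  classical
  induction n with
  | zero =>
    intro a b D hab hd hD
    have : a = b := by
      have h0 : G.dist a b = 0 := by omega
      rcases SimpleGraph.dist_eq_zero_iff_eq_or_not_reachable.mp h0 with h | h
      · exact h
      · exact absurd hab h
    subst this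
    exact ⟨D, Relation.ReflTransGen.refl, by simpa using hD⟩
  | succ n ih =>
    intro a b D hab hd hD
    by_cases hcase : G.dist a b ≤ n
    · exact ih a b D hab hcase (le_trans (Nat.pow_le_pow_right (by norm_num) (by omega)) hD)
    have hd' : G.dist a b = n + 1 := by omega
    obtain ⟨w, hw⟩ := hab.exists_walk_length_eq_dist
    cases w with
    | nil =>
      exfalso
      rw [SimpleGraph.Walk.length_nil] at hw
      omega
    | @cons _ c _ hadj w =>
      have hwlen : w.length = n := by
        simp at hw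
        omega
      have hcb : G.Reachable c b := ⟨w⟩
      have hdc : G.dist c b ≤ n := hwlen ▸ SimpleGraph.dist_le w
      -- move `2 ^ n` pebbles from `a` to `c`
      have hne : a ≠ c := hadj.ne
      have step : ∀ j : ℕ, 2 * j ≤ D a →
          Relation.ReflTransGen (Move G) D
            (fun u => if u = a then D a - 2 * j else if u = c then D c + j else D u) := by
        intro j
        induction j with
        | zero =>
          intro _
          have : (fun u => if u = a then D a - 2 * 0 else if u = c then D c + 0 else D u) = D := by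
            funext u
            by_cases h1 : u = a
            · simp [h1]
            · by_cases h2 : u = c
              · subst h2
                simp [h1]
              · simp [h1, h2]
          rw [this]
        | succ j ihj =>
          intro hj
          refine (ihj (by omega)).tail ⟨a, c, hadj, ?_, ?_, ?_⟩
          · simp only [if_true]
            omega
          · simp only [if_neg hne.symm, if_true]
            omega
          · intro u hu1 hu2
            simp only [if_neg hu1, if_neg hu2]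
      have h1 := step (2 ^ n) (by rw [pow_succ] at hD; omega)
      set D1 : V → ℕ := fun u => if u = a then D a - 2 * 2 ^ n else
        if u = c then D c + 2 ^ n else D u with hD1
      obtain ⟨D2, h2, h3⟩ := ih c b D1 hcb hdc (by
        rw [hD1]
        simp only [if_neg hne.symm, if_true]
        omega)
      exact ⟨D2, h1.trans h2, h3⟩

lemma optimalPebbling_le {V : Type} [Fintype V] (G : SimpleGraph V) (hG : G.Connected) (a : V)
    (n : ℕ) (h : ∀ b, G.dist a b ≤ n) : optimalPebbling G ≤ 2 ^ n := by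
  classical
  apply Nat.sInf_le
  refine ⟨fun v => if v = a then 2 ^ n else 0, by simp, fun r => ?_⟩
  exact travel G n a r _ (hG a r) (h r) (by simp)

/-- The incidence graph of the affine plane over `ZMod p`, without the vertical lines. -/
def AG (p : ℕ) : SimpleGraph ((ZMod p × ZMod p) ⊕ (ZMod p × ZMod p)) where
  Adj
    | Sum.inl P, Sum.inr L => P.2 = L.1 * P.1 + L.2
    | Sum.inr L, Sum.inl P => P.2 = L.1 * P.1 + L.2
    | _, _ => False
  symm := ⟨by
    rintro (P | L) (Q | M) h
    · exact h
    · exact h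
    · exact h
    · exact h⟩
  loopless := ⟨by
    rintro (P | L) h
    · exact h
    · exact h⟩

lemma AG_lr {p : ℕ} (P L : ZMod p × ZMod p) :
    (AG p).Adj (Sum.inl P) (Sum.inr L) ↔ P.2 = L.1 * P.1 + L.2 := Iff.rfl
lemma AG_rl {p : ℕ} (P L : ZMod p × ZMod p) :
    (AG p).Adj (Sum.inr L) (Sum.inl P) ↔ P.2 = L.1 * P.1 + L.2 := Iff.rfl
lemma AG_ll {p : ℕ} (P L : ZMod p × ZMod p) : ¬ (AG p).Adj (Sum.inl P) (Sum.inl L) := id
lemma AG_rr {p : ℕ} (P L : ZMod p × ZMod p) : ¬ (AG p).Adj (Sum.inr P) (Sum.inr L) := id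

lemma AG_three {p : ℕ} : ∀ x y z, (AG p).Adj x y → (AG p).Adj y z → ¬ (AG p).Adj x z := by
  rintro (x | x) (y | y) (z | z) h1 h2 h3
  · exact h1
  · exact h1
  · exact h3
  · exact h2
  · exact h2
  · exact h3
  · exact h1
  · exact h1

lemma uniq {p : ℕ} [Fact p.Prime] {x y x' y' m b m' b' : ZMod p} (h1 : y = m * x + b)
    (h2 : y' = m * x' + b) (h3 : y = m' * x + b') (h4 : y' = m' * x' + b')
    : (x = x' ∧ y = y') ∨ (m = m' ∧ b = b') := by
  have h5 : (m - m') * (x - x') = 0 := by
    linear_combination h3 - h4 - h1 + h2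
  rcases mul_eq_zero.mp h5 with h | h
  · right
    have hm : m = m' := sub_eq_zero.mp h
    refine ⟨hm, ?_⟩
    rw [hm] at h1
    linear_combination h3 - h1
  · left
    have hx : x = x' := sub_eq_zero.mp h
    refine ⟨hx, ?_⟩
    rw [h1, h2, hx]

lemma AG_four {p : ℕ} [Fact p.Prime] : ∀ x z, x ≠ z → ∀ y w, (AG p).Adj x y → (AG p).Adj y z →
    (AG p).Adj x w → (AG p).Adj w z → y = w := by
  rintro (x | x) (z | z) hxz (y | y) (w | w) h1 h2 h3 h4
  all_goals first
    | exact absurd h1 id
    | exact absurd h2 id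
    | exact absurd h3 id
    | exact absurd h4 id
    | skip
  · rw [AG_lr] at h1 h3
    rw [AG_rl] at h2 h4
    rcases uniq h1 h2 h3 h4 with h | h
    · exact absurd (by rw [Sum.inl.injEq]; exact Prod.ext h.1 h.2) hxz
    · rw [Sum.inr.injEq]; exact Prod.ext h.1 h.2
  · rw [AG_rl] at h1 h3
    rw [AG_lr] at h2 h4
    rcases uniq h1 h3 h2 h4 with h | h
    · rw [Sum.inl.injEq]; exact Prod.ext h.1 h.2
    · exact absurd (by rw [Sum.inr.injEq]; exact Prod.ext h.1 h.2) hxz

lemma AG_deg {p : ℕ} [Fact p.Prime] (v : (ZMod p × ZMod p) ⊕ (ZMod p × ZMod p)) :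
    ∃ s : Finset ((ZMod p × ZMod p) ⊕ (ZMod p × ZMod p)), p ≤ s.card ∧
      ∀ y ∈ s, (AG p).Adj v y := by
  classical
  rcases v with P | L
  · refine ⟨(Finset.univ : Finset (ZMod p)).map
      ⟨fun m => Sum.inr (m, P.2 - m * P.1), fun m m' h => ?_⟩, ?_, ?_⟩
    · rw [Sum.inr.injEq, Prod.mk.injEq] at h
      exact h.1
    · rw [Finset.card_map, Finset.card_univ, ZMod.card]
    · intro y hy
      rw [Finset.mem_map] at hy
      obtain ⟨m, -, rfl⟩ := hy
      show P.2 = m * P.1 + (P.2 - m * P.1)
      ring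
  · refine ⟨(Finset.univ : Finset (ZMod p)).map
      ⟨fun x => Sum.inl (x, L.1 * x + L.2), fun m m' h => ?_⟩, ?_, ?_⟩
    · rw [Sum.inl.injEq, Prod.mk.injEq] at h
      exact h.1
    · rw [Finset.card_map, Finset.card_univ, ZMod.card]
    · intro y hy
      rw [Finset.mem_map] at hy
      obtain ⟨m, -, rfl⟩ := hy
      show L.1 * m + L.2 = L.1 * m + L.2
      rfl

/-- every vertex is reached from `(0, 0)` by a walk with at most four edges -/
lemma AG_walk {p : ℕ} [Fact p.Prime] (v : (ZMod p × ZMod p) ⊕ (ZMod p × ZMod p)) :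
    ∃ w : (AG p).Walk (Sum.inl (0, 0)) v, w.length ≤ 4 := by
  -- points with `x ≠ 0`
  have hP : ∀ x y : ZMod p, x ≠ 0 →
      ∃ w : (AG p).Walk (Sum.inl (0, 0)) (Sum.inl (x, y)), w.length = 2 := by
    intro x y hx
    have h1 : (AG p).Adj (Sum.inl (0, 0)) (Sum.inr (y / x, 0)) := by
      show (0 : ZMod p) = y / x * 0 + 0
      ring
    have h2 : (AG p).Adj (Sum.inr (y / x, 0)) (Sum.inl (x, y)) := by
      show y = y / x * x + 0
      field_simp
      ring
    exact ⟨SimpleGraph.Walk.cons h1 (SimpleGraph.Walk.cons h2 SimpleGraph.Walk.nil), rfl⟩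
  have hL : ∀ m b : ZMod p,
      ∃ w : (AG p).Walk (Sum.inl (0, 0)) (Sum.inr (m, b)), w.length = 3 := by
    intro m b
    obtain ⟨w, hw⟩ := hP 1 (m * 1 + b) one_ne_zero
    have h3 : (AG p).Adj (Sum.inl (1, m * 1 + b)) (Sum.inr (m, b)) := by
      show m * 1 + b = m * 1 + b
      rfl
    refine ⟨w.append (SimpleGraph.Walk.cons h3 SimpleGraph.Walk.nil), ?_⟩
    rw [SimpleGraph.Walk.length_append, hw]
    rfl
  rcases v with ⟨x, y⟩ | ⟨m, b⟩
  · obtain ⟨w, hw⟩ := hL 0 y
    have h3 : (AG p).Adj (Sum.inr (0, y)) (Sum.inl (x, y)) := by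
      show y = 0 * x + y
      ring
    refine ⟨w.append (SimpleGraph.Walk.cons h3 SimpleGraph.Walk.nil), ?_⟩
    rw [SimpleGraph.Walk.length_append, hw]
    rfl
  · obtain ⟨w, hw⟩ := hL m b
    exact ⟨w, by omega⟩

lemma AG_connected {p : ℕ} [Fact p.Prime] : (AG p).Connected := by
  have : Nonempty ((ZMod p × ZMod p) ⊕ (ZMod p × ZMod p)) := ⟨Sum.inl (0, 0)⟩
  refine ⟨fun u v => ?_⟩
  obtain ⟨w1, -⟩ := AG_walk u
  obtain ⟨w2, -⟩ := AG_walk v
  exact (SimpleGraph.Walk.reachable w1).symm.trans (SimpleGraph.Walk.reachable w2)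

theorem result : ∀ N : ℕ, ∃ (V : Type) (_ : Fintype V) (G : SimpleGraph V),
    G.Connected ∧ optimalPebbling G ≤ 16 ∧ N ≤ copNumber G := by
  intro N
  obtain ⟨p, hp1, hp2⟩ := Nat.exists_infinite_primes N
  have : Fact p.Prime := ⟨hp2⟩
  refine ⟨(ZMod p × ZMod p) ⊕ (ZMod p × ZMod p), inferInstance, AG p, AG_connected, ?_, ?_⟩
  · have h := optimalPebbling_le (AG p) AG_connected (Sum.inl (0, 0)) 4 (fun b => by
      obtain ⟨w, hw⟩ := AG_walk b
      exact (SimpleGraph.dist_le w).trans hw)
    simpa using h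
  · have : Nonempty ((ZMod p × ZMod p) ⊕ (ZMod p × ZMod p)) := ⟨Sum.inl (0, 0)⟩
    exact hp1.trans (le_copNumber (AG p) AG_three AG_four p AG_deg)

end Pool.Agent.Results.MP_64c30f_co.UnboundedGap
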